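import Pool.Agent.Helper55.RT.Spec5

set_option autoImplicit false

namespace Pool.Agent.Helper40.Thin.STB

open Pool.Agent.Helper55.RT

theorem main (hMON : Q_MON) (hEXO : Q_EXO) : Q_STB := by
  intro p hp Ω _ _ _ _ m hm R _ _ hR r
  let rΩ : Representation Ω R (Fin m → Ω) :=
    (((Matrix.toLinAlgEquiv' : Matrix (Fin m) (Fin m) Ω ≃ₐ[Ω] _) :
        Matrix (Fin m) (Fin m) Ω →* ((Fin m → Ω) →ₗ[Ω] (Fin m → Ω))).comp
      (((algebraMap ℚ_[p] Ω).mapMatrix : Matrix (Fin m) (Fin m) ℚ_[p] →+*
        Matrix (Fin m) (Fin m) Ω) : Matrix (Fin m) (Fin m) ℚ_[p] →* Matrix (Fin m) (Fin m) Ω)).comp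
      ((Units.coeHom (Matrix (Fin m) (Fin m) ℚ_[p])).comp r)
  have hrΩ : ∀ (h : R) (x : Fin m → Ω),
      rΩ h x = ((r h).1.map (algebraMap ℚ_[p] Ω)).mulVec x := by
    intro h x
    rfl
  have hM := hMON p Ω R hR (Fin m → Ω) rΩ
  rw [eq_top_iff, ← hM]
  apply Submodule.span_mono
  rintro x ⟨H, χ, hH, hχ⟩
  rw [Module.finrank_fin_fun] at hH
  have hp2 : 1 ≤ p := hp.out.one_lt.le
  by_cases hx : x = 0
  · refine ⟨⊤, ?_, ?_⟩
    · rw [Subgroup.index_top]
      have : 1 ≤ 2 * p * m ^ 2 := Nat.one_le_iff_ne_zero.mpr (by positivity)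
      exact this
    · intro h _
      rw [hx, Matrix.mulVec_zero]
  · refine ⟨χ.ker.map H.subtype, ?_, ?_⟩
    · rw [Subgroup.index_map_subtype, Subgroup.index_ker]
      have hfin : Finite χ.range := Finite.of_surjective χ.rangeRestrict χ.rangeRestrict_surjective
      have hcyc : IsCyclic χ.range := inferInstance
      obtain ⟨g, hg⟩ := hcyc.exists_generator
      have hcard : Nat.card χ.range = orderOf g := by
        rw [← Nat.card_zpowers]
        have : Subgroup.zpowers g = ⊤ := by
          rw [eq_top_iff]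
          intro y _
          exact hg y
        rw [this, Subgroup.card_top]
      obtain ⟨h0, hh0⟩ := g.2
      -- order of g
      have hord : orderOf g ≤ 2 * p * m := by
        obtain ⟨a, ha⟩ := hR (h0 : R)
        have h1 : ((r (h0 : R)).1) ^ p ^ a = 1 := by
          have := congrArg (fun u : R => ((r u).1 : Matrix (Fin m) (Fin m) ℚ_[p])) ha
          simpa using this
        obtain ⟨b, hb1, hb2⟩ := hEXO p m hm ((r (h0 : R)).1) a h1
        have h2 : rΩ ((h0 : R) ^ p ^ b) x = x := by
          rw [hrΩ]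
          have : (r ((h0 : R) ^ p ^ b)).1 = 1 := by
            rw [map_pow]
            simpa using hb2
          rw [this]
          simp
        have h3 : rΩ (((h0 ^ p ^ b : H)) : R) x = ((χ (h0 ^ p ^ b) : Ωˣ) : Ω) • x :=
          hχ (h0 ^ p ^ b)
        have h4 : ((χ (h0 ^ p ^ b) : Ωˣ) : Ω) • x = (1 : Ω) • x := by
          rw [← h3, one_smul]
          simpa using h2
        have h5 : ((χ (h0 ^ p ^ b) : Ωˣ) : Ω) = 1 := smul_left_injective Ω hx h4
        have h6 : χ (h0 ^ p ^ b) = 1 := Units.ext h5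
        have h7 : g ^ p ^ b = 1 := by
          apply Subtype.ext
          rw [map_pow, hh0] at h6
          simpa using h6
        have h8 : orderOf g ∣ p ^ b := orderOf_dvd_of_pow_eq_one h7
        exact (Nat.le_of_dvd (pow_pos hp.out.pos b) h8).trans hb1
      rw [hcard]
      calc orderOf g * H.index ≤ (2 * p * m) * m := Nat.mul_le_mul hord hH
        _ = 2 * p * m ^ 2 := by ring
    · intro h hh
      obtain ⟨k, hk, rfl⟩ := Subgroup.mem_map.mp hh
      have h1 := hχ k
      rw [MonoidHom.mem_ker] at hk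
      rw [hk] at h1
      simp only [Units.val_one, one_smul] at h1
      rw [← hrΩ]
      exact h1

end Pool.Agent.Helper40.Thin.STB
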