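import Pool.Agent.Helper55.RT.Spec6
import Pool.Agent.Helper61.RG.CJ2

set_option autoImplicit false
set_option linter.all false

open Polynomial IsDedekindDomain
open scoped Classical

namespace Pool.Agent.Helper40.Thin.TRN

open Pool.Agent.TH115.GD Pool.Agent.Helper55.TT
open Pool.Agent.Helper55.RG hiding em_inj VanishL VanishExt
open Pool.Agent.Helper55.RL Pool.Agent.Helper55.RT
open Pool.Agent.Helper61.RG.CJ2

theorem main : Q_TRN := by
  intro k k' K F _ _ _ _ _ _ _ _ _ _ hT τ θ θ' hτ ι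
  haveI := hT.sep
  haveI := hT.fracK
  haveI : IsSepClosure K (Sep F) := sepKΩ hT.map
  haveI : Normal K (Sep F) := inferInstance
  obtain ⟨s, hs⟩ := restr (Ω := Sep F) hT.map τ
  have hinjF : Function.Injective (algebraMap F (Sep F)) := (algebraMap F (Sep F)).injective
  have hinjP : Function.Injective (algebraMap k'[X] F) := IsFractionRing.injective k'[X] F
  have hsF : ∀ x : F, τ (algebraMap F (Sep F) x) =
      algebraMap F (Sep F) (es F (s : k' ≃+* k') x) := by
    intro x
    obtain ⟨n, d, hd, rfl⟩ := IsFractionRing.div_surjective (A := k'[X]) x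
    rw [map_div₀, map_div₀, hs, hs, map_div₀, es_poly, es_poly, map_div₀]
    rfl
  have hθ : s θ = θ' := by
    have h1 := hs (C θ)
    have h2 : τ (algebraMap F (Sep F) (algebraMap k'[X] F (C θ))) =
      algebraMap F (Sep F) (algebraMap k'[X] F (C θ')) := hτ
    rw [h2] at h1
    have h3 := hinjP (hinjF h1)
    rw [Polynomial.map_C] at h3
    exact (C_injective h3).symm
  subst hθ
  obtain ⟨γ, hγ⟩ := comp_iso (F := F) (pl θ) (pl (s θ)) (es F (s : k' ≃+* k'))
    (es_val2 (F := F) (s : k' ≃+* k') θ)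
  obtain ⟨G, hG⟩ := exists_G2 γ
  let φ : Sep F →ₐ[F] Sep (Comp k'[X] F (pl (s θ))) :=
    { toRingHom := ((G : Sep (Comp k'[X] F (pl θ)) →+* _).comp ι.toRingHom).comp
        ((τ.symm : Sep F ≃ₐ[K] Sep F) : Sep F →+* Sep F)
      commutes' := by
        intro x
        show G (ι (τ.symm (algebraMap F (Sep F) x))) = _
        obtain ⟨y, rfl⟩ := (es F (s : k' ≃+* k')).surjective x
        rw [← hsF, AlgEquiv.symm_apply_apply, ι.commutes,
          IsScalarTower.algebraMap_apply F (Comp k'[X] F (pl θ)) (Sep (Comp k'[X] F (pl θ))),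
          hG, hγ, ← IsScalarTower.algebraMap_apply F (Comp k'[X] F (pl (s θ)))] }
  have hφ : ∀ x, φ (τ x) = G (ι x) := by
    intro x
    show G (ι (τ.symm (τ x))) = G (ι x)
    rw [AlgEquiv.symm_apply_apply]
  refine ⟨φ, fun σ σ' hσσ' hσ => ?_⟩
  obtain ⟨T, hT1⟩ := hσ
  let e : Sep (Comp k'[X] F (pl θ)) ≃+* Sep (Comp k'[X] F (pl θ)) :=
    (G.trans T.toRingEquiv).trans G.symm
  refine ⟨AlgEquiv.ofRingEquiv (f := e) ?_, ?_⟩
  · intro x
    show G.symm (T (G (algebraMap _ _ x))) = algebraMap _ _ x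
    rw [hG, T.commutes, ← hG, RingEquiv.symm_apply_apply]
  · intro x
    show G.symm (T (G (ι x))) = ι (σ' x)
    rw [← hφ, hT1, ← hσσ', hφ, RingEquiv.symm_apply_apply]

end Pool.Agent.Helper40.Thin.TRN
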